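import Pool.Agent.H43.G.R_seed8.H398R2.BA1

/-!
Dyadic summation over conductors.
-/

set_option autoImplicit false

open Finset

namespace Pool.Agent.H441R3.BV

open Pool.Agent.H398R2.BV (hyperC sum_card_div_div)

theorem inv_tot_le (n : ℕ) (hn : 1 ≤ n) : 1 / (Nat.totient n : ℝ) ≤ (n.divisors.card : ℝ) / n := by
  have h1 : n ≤ n.divisors.card * Nat.totient n := by
    calc n = ∑ d ∈ n.divisors, Nat.totient d := (Nat.sum_totient n).symm
      _ ≤ ∑ _d ∈ n.divisors, Nat.totient n := by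
          apply sum_le_sum
          intro d hd
          exact Nat.le_of_dvd (Nat.totient_pos.mpr hn)
            (Nat.totient_dvd_of_dvd (Nat.dvd_of_mem_divisors hd))
      _ = _ := by rw [sum_const, smul_eq_mul]
  have h2 : (0:ℝ) < Nat.totient n := by exact_mod_cast Nat.totient_pos.mpr hn
  have h3 : (0:ℝ) < n := by exact_mod_cast hn
  rw [div_le_div_iff₀ h2 h3, one_mul]
  exact_mod_cast h1

theorem sum_inv_tot (D : ℕ) : ∑ e ∈ Icc 1 D, 1 / (Nat.totient e : ℝ) ≤ (1 + Real.log D) ^ 2 := by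
  refine le_trans (sum_le_sum fun e he => ?_) (sum_card_div_div D)
  rw [mem_Icc] at he
  exact inv_tot_le e he.1

/-- from moduli to conductors -/
theorem swap (D : ℕ) (G : ℕ → ℝ) (hG : ∀ f, 0 ≤ G f) :
    ∑ d ∈ Icc 1 D, (1 / (Nat.totient d : ℝ)) * ∑ f ∈ d.divisors.filter (fun f => f ≠ 1), G f ≤
      ∑ f ∈ Icc 2 D, (1 / (Nat.totient f : ℝ)) * G f * (1 + Real.log (D / f)) ^ 2 := by
  set g : ℕ → ℕ → ℝ := fun k f => if f ≠ 1 then G f / (Nat.totient (k * f) : ℝ) else 0 with hg
  have e1 : ∑ d ∈ Icc 1 D, (1 / (Nat.totient d : ℝ)) * ∑ f ∈ d.divisors.filter (fun f => f ≠ 1), G f =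
      ∑ d ∈ Icc 1 D, ∑ i ∈ d.divisorsAntidiagonal, g i.1 i.2 := by
    apply sum_congr rfl
    intro d _
    rw [Nat.sum_divisorsAntidiagonal' (fun a b => g a b), mul_sum, sum_filter]
    apply sum_congr rfl
    intro f hf
    rw [Nat.mem_divisors] at hf
    simp only [hg]
    split_ifs with h
    · rw [Nat.div_mul_cancel hf.1]
      ring
    · rfl
  rw [e1, hyperC]
  have e2 : ∑ c ∈ Icc 1 D, ∑ b ∈ Icc 1 (D / c), g b c ≤
      ∑ c ∈ Icc 1 D, (if c ≠ 1 then (1 / (Nat.totient c : ℝ)) * G c * (1 + Real.log (D / c)) ^ 2 else 0) := by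
    apply sum_le_sum
    intro c hc
    rw [mem_Icc] at hc
    split_ifs with h
    · have hφc : (0:ℝ) < Nat.totient c := by exact_mod_cast Nat.totient_pos.mpr (by omega)
      have hc0 : (0:ℝ) < c := by
        have : 0 < c := by omega
        exact_mod_cast this
      have h1 : ∀ b ∈ Icc 1 (D / c), g b c ≤ (1 / (Nat.totient c : ℝ)) * G c * (1 / (Nat.totient b : ℝ)) := by
        intro b hb
        rw [mem_Icc] at hb
        simp only [hg]
        rw [if_pos h]
        have hφb : (0:ℝ) < Nat.totient b := by exact_mod_cast Nat.totient_pos.mpr (by omega)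
        have h2 : (Nat.totient b : ℝ) * Nat.totient c ≤ Nat.totient (b * c) := by
          exact_mod_cast Nat.totient_super_multiplicative b c
        calc G c / (Nat.totient (b * c) : ℝ) ≤ G c / ((Nat.totient b : ℝ) * Nat.totient c) :=
              div_le_div_of_nonneg_left (hG c) (by positivity) h2
          _ = _ := by field_simp
      refine (sum_le_sum h1).trans ?_
      rw [← mul_sum]
      have h3 : 0 ≤ (1 / (Nat.totient c : ℝ)) * G c := mul_nonneg (by positivity) (hG c)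
      apply mul_le_mul_of_nonneg_left _ h3
      refine (sum_inv_tot _).trans ?_
      have h4 : 1 ≤ D / c := (Nat.one_le_div_iff (by omega)).2 hc.2
      have h5 : Real.log ((D / c : ℕ) : ℝ) ≤ Real.log (D / c) := by
        apply Real.log_le_log
        · exact_mod_cast h4
        · exact Nat.cast_div_le
      have h6 : 0 ≤ Real.log ((D / c : ℕ) : ℝ) := Real.log_natCast_nonneg _
      gcongr
    · apply le_of_eq
      apply sum_eq_zero
      intro b _
      simp only [hg]
      rw [if_neg h]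
  refine e2.trans ?_
  rw [← sum_filter]
  apply le_of_eq
  apply sum_congr _ fun _ _ => rfl
  ext f
  simp only [mem_filter, mem_Icc]
  omega

lemma log_sq_le (t : ℝ) (ht : 1 ≤ t) : (1 + Real.log t) ^ 2 ≤ 4 * Real.sqrt t := by
  have ht0 : 0 < t := by linarith
  have hv : 0 ≤ Real.log t := Real.log_nonneg ht
  set v := Real.log t with hvdef
  have h1 : 1 + v ≤ 2 * Real.exp (v / 4) := by
    have := Real.quadratic_le_exp_of_nonneg (show 0 ≤ v / 4 by linarith)
    nlinarith [sq_nonneg (1 - v / 4)]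
  have h2 : Real.exp (v / 4) ^ 2 = Real.sqrt t := by
    rw [← Real.exp_nat_mul]
    have : Real.sqrt t = Real.exp (v / 2) := by
      rw [Real.sqrt_eq_rpow, Real.rpow_def_of_pos ht0, ← hvdef]
      congr 1
      ring
    rw [this]
    congr 1
    push_cast
    ring
  calc (1 + v) ^ 2 ≤ (2 * Real.exp (v / 4)) ^ 2 := by
        apply pow_le_pow_left₀ (by linarith) h1
    _ = 4 * Real.exp (v / 4) ^ 2 := by ring
    _ = 4 * Real.sqrt t := by rw [h2]

lemma geo (D n : ℕ) (hn : ∀ i < n, 2 ^ i ≤ D) :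
    ∑ i ∈ range n, ((2:ℝ) ^ i * (1 + Real.log ((D:ℝ) / 2 ^ i)) ^ 2) ≤ 15 * (D:ℝ) := by
  have hr0 : 0 ≤ Real.sqrt 2 := Real.sqrt_nonneg _
  have hr2 : Real.sqrt 2 ^ 2 = 2 := Real.sq_sqrt (by norm_num)
  have hr1 : Real.sqrt 2 ≤ 1.4143 := by
    rw [Real.sqrt_le_left (by norm_num)]
    norm_num
  have hr1' : 1.4142 ≤ Real.sqrt 2 := by
    apply Real.le_sqrt_of_sq_le
    norm_num
  have h1 : ∀ i ∈ range n, (2:ℝ) ^ i * (1 + Real.log (D / 2 ^ i)) ^ 2 ≤
      4 * Real.sqrt D * Real.sqrt 2 ^ i := by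
    intro i hi
    rw [mem_range] at hi
    have h2 : ((2:ℝ) ^ i) ≤ D := by exact_mod_cast hn i hi
    have hp : (0:ℝ) < 2 ^ i := by positivity
    have h3 := log_sq_le (D / 2 ^ i) (by rw [le_div_iff₀ hp]; linarith)
    have hsp : Real.sqrt (2 ^ i) = Real.sqrt 2 ^ i := by
      rw [Real.sqrt_eq_iff_mul_self_eq (by positivity) (by positivity), ← mul_pow, ← sq, hr2]
    calc (2:ℝ) ^ i * (1 + Real.log (D / 2 ^ i)) ^ 2 ≤ 2 ^ i * (4 * Real.sqrt (D / 2 ^ i)) := by gcongr
      _ = 4 * Real.sqrt D * Real.sqrt 2 ^ i := by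
          rw [Real.sqrt_div (Nat.cast_nonneg _), hsp]
          have : (2:ℝ) ^ i = Real.sqrt 2 ^ i * Real.sqrt 2 ^ i := by
            rw [← mul_pow, ← sq, hr2]
          rw [this]
          have h5 : Real.sqrt 2 ^ i ≠ 0 := by positivity
          field_simp
  refine (sum_le_sum h1).trans ?_
  rw [← mul_sum]
  rcases Nat.eq_zero_or_pos n with h0 | h0
  · subst h0; simp
  have h2 : ∑ i ∈ range n, Real.sqrt 2 ^ i ≤ (Real.sqrt 2 + 1) * Real.sqrt 2 ^ n := by
    have hne : Real.sqrt 2 ≠ 1 := by linarith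
    rw [geom_sum_eq hne, div_le_iff₀ (by linarith)]
    have : (Real.sqrt 2 + 1) * Real.sqrt 2 ^ n * (Real.sqrt 2 - 1) =
        Real.sqrt 2 ^ n * (Real.sqrt 2 ^ 2 - 1) := by ring
    rw [this, hr2]
    linarith
  have h3 : Real.sqrt 2 ^ n ≤ Real.sqrt 2 * Real.sqrt D := by
    obtain ⟨m, rfl⟩ : ∃ m, n = m + 1 := ⟨n - 1, by omega⟩
    have h4 := hn m (by omega)
    have h4' : ((2:ℝ) ^ m) ≤ D := by exact_mod_cast h4
    rw [pow_succ, mul_comm]
    apply mul_le_mul_of_nonneg_left _ hr0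
    apply Real.le_sqrt_of_sq_le
    rw [← pow_mul, mul_comm m 2, pow_mul, hr2]
    exact h4'
  have hD := Real.mul_self_sqrt (Nat.cast_nonneg (α := ℝ) D)
  have hsD : 0 ≤ Real.sqrt D := Real.sqrt_nonneg _
  calc 4 * Real.sqrt D * ∑ i ∈ range n, Real.sqrt 2 ^ i
      ≤ 4 * Real.sqrt D * ((Real.sqrt 2 + 1) * (Real.sqrt 2 * Real.sqrt D)) := by
        apply mul_le_mul_of_nonneg_left _ (by positivity)
        refine h2.trans ?_
        apply mul_le_mul_of_nonneg_left h3 (by linarith)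
    _ = 4 * (Real.sqrt 2 ^ 2 + Real.sqrt 2) * (Real.sqrt D * Real.sqrt D) := by ring
    _ = 4 * (2 + Real.sqrt 2) * D := by rw [hr2, hD]
    _ ≤ 15 * D := by
        have : (0:ℝ) ≤ D := Nat.cast_nonneg _
        nlinarith

/-- the dyadic summation -/
theorem dyadic (D i0 : ℕ) (hD : 1 ≤ D) (g : ℕ → ℝ) (hg : ∀ f, 0 ≤ g f) (R0 R A : ℝ) (hR : 0 ≤ R)
    (hA : 0 ≤ A) (h0 : ∑ f ∈ Icc 2 (2 ^ i0), g f ≤ R0)
    (h1 : ∀ i, i0 ≤ i → 2 ^ i ≤ D → ∑ f ∈ Ioc (2 ^ i) (2 * 2 ^ i), g f ≤ A * 2 ^ i + R) :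
    ∑ f ∈ Icc 2 D, g f * (1 + Real.log (D / f)) ^ 2 ≤
      R0 * (1 + Real.log D) ^ 2 + 15 * A * D + (Nat.log 2 D + 1) * (1 + Real.log D) ^ 2 * R := by
  have hDr : (1:ℝ) ≤ D := by exact_mod_cast hD
  have hlD : 0 ≤ Real.log D := Real.log_nonneg hDr
  rw [← sum_filter_add_sum_filter_not (Icc 2 D) (fun f => f ≤ 2 ^ i0)]
  have p1 : ∑ f ∈ (Icc 2 D).filter (fun f => f ≤ 2 ^ i0), g f * (1 + Real.log (D / f)) ^ 2 ≤
      R0 * (1 + Real.log D) ^ 2 := by
    calc ∑ f ∈ (Icc 2 D).filter (fun f => f ≤ 2 ^ i0), g f * (1 + Real.log (D / f)) ^ 2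
        ≤ ∑ f ∈ (Icc 2 D).filter (fun f => f ≤ 2 ^ i0), g f * (1 + Real.log D) ^ 2 := by
          apply sum_le_sum
          intro f hf
          rw [mem_filter, mem_Icc] at hf
          have hf0 : (1:ℝ) ≤ f := by
            have : 1 ≤ f := by omega
            exact_mod_cast this
          have hfD : (f:ℝ) ≤ D := by exact_mod_cast hf.1.2
          apply mul_le_mul_of_nonneg_left _ (hg f)
          have h2 : 0 ≤ Real.log (D / f) := Real.log_nonneg (by rw [le_div_iff₀ (by linarith)]; linarith)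
          have h3 : Real.log (D / f) ≤ Real.log D := by
            apply Real.log_le_log (by positivity)
            exact div_le_self (by linarith) hf0
          gcongr
      _ ≤ ∑ f ∈ Icc 2 (2 ^ i0), g f * (1 + Real.log D) ^ 2 := by
          apply sum_le_sum_of_subset_of_nonneg
          · intro f hf
            rw [mem_filter, mem_Icc] at hf
            rw [mem_Icc]
            exact ⟨hf.1.1, hf.2⟩
          · intro f _ _
            exact mul_nonneg (hg f) (by positivity)
      _ ≤ _ := by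
          rw [← sum_mul]
          gcongr
  have p2 : ∑ f ∈ (Icc 2 D).filter (fun f => ¬ f ≤ 2 ^ i0), g f * (1 + Real.log (D / f)) ^ 2 ≤
      15 * A * D + (Nat.log 2 D + 1) * (1 + Real.log D) ^ 2 * R := by
    set n := Nat.log 2 D + 1 with hn
    have hlog : ∀ f, 2 ≤ f → 2 ^ Nat.log 2 (f - 1) < f ∧ f ≤ 2 * 2 ^ Nat.log 2 (f - 1) := by
      intro f hf
      have a1 := Nat.pow_log_le_self 2 (by omega : f - 1 ≠ 0)
      have a2 := Nat.lt_pow_succ_log_self (b := 2) (by norm_num) (f - 1)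
      rw [pow_succ] at a2
      omega
    have hmaps : ∀ f ∈ (Icc 2 D).filter (fun f => ¬ f ≤ 2 ^ i0), Nat.log 2 (f - 1) ∈ Ico i0 n := by
      intro f hf
      rw [mem_filter, mem_Icc] at hf
      rw [mem_Ico]
      constructor
      · have := hlog f hf.1.1
        by_contra hcon
        push Not at hcon
        have h2 : 2 ^ (Nat.log 2 (f - 1) + 1) ≤ 2 ^ i0 := Nat.pow_le_pow_right (by norm_num) (by omega)
        rw [pow_succ] at h2
        omega
      · rw [hn]
        apply Nat.lt_succ_of_le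
        exact Nat.log_mono_right (by omega)
    rw [← sum_fiberwise_of_maps_to hmaps]
    have h2 : ∀ i ∈ Ico i0 n, ∑ f ∈ ((Icc 2 D).filter (fun f => ¬ f ≤ 2 ^ i0)).filter
        (fun f => Nat.log 2 (f - 1) = i), g f * (1 + Real.log (D / f)) ^ 2 ≤
        (A * 2 ^ i + R) * (1 + Real.log (D / 2 ^ i)) ^ 2 := by
      intro i hi
      rw [mem_Ico] at hi
      have hiD : 2 ^ i ≤ D := by
        have h3 : 2 ^ i ≤ 2 ^ Nat.log 2 D := Nat.pow_le_pow_right (by norm_num) (by omega)
        exact h3.trans (Nat.pow_log_le_self 2 (by omega))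
      have hiD' : (2:ℝ) ^ i ≤ D := by exact_mod_cast hiD
      have hp : (0:ℝ) < 2 ^ i := by positivity
      calc ∑ f ∈ ((Icc 2 D).filter (fun f => ¬ f ≤ 2 ^ i0)).filter (fun f => Nat.log 2 (f - 1) = i), g f * (1 + Real.log (D / f)) ^ 2
          ≤ ∑ f ∈ ((Icc 2 D).filter (fun f => ¬ f ≤ 2 ^ i0)).filter (fun f => Nat.log 2 (f - 1) = i), g f * (1 + Real.log (D / 2 ^ i)) ^ 2 := by
            apply sum_le_sum
            intro f hf
            rw [mem_filter, mem_filter, mem_Icc] at hf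
            have h3 := hlog f hf.1.1.1
            rw [hf.2] at h3
            have h4 : (2:ℝ) ^ i ≤ f := by exact_mod_cast h3.1.le
            have h5 : (f:ℝ) ≤ D := by exact_mod_cast hf.1.1.2
            have hf0 : (0:ℝ) < f := by linarith
            apply mul_le_mul_of_nonneg_left _ (hg f)
            have h6 : 0 ≤ Real.log (D / f) := Real.log_nonneg (by rw [le_div_iff₀ hf0]; linarith)
            have h7 : Real.log (D / f) ≤ Real.log (D / 2 ^ i) := by
              apply Real.log_le_log (by positivity)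
              gcongr
            gcongr
        _ ≤ ∑ f ∈ Ioc (2 ^ i) (2 * 2 ^ i), g f * (1 + Real.log (D / 2 ^ i)) ^ 2 := by
            apply sum_le_sum_of_subset_of_nonneg
            · intro f hf
              rw [mem_filter, mem_filter, mem_Icc] at hf
              have h3 := hlog f hf.1.1.1
              rw [hf.2] at h3
              rw [mem_Ioc]
              exact h3
            · intro f _ _
              exact mul_nonneg (hg f) (by positivity)
        _ ≤ _ := by
            rw [← sum_mul]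
            apply mul_le_mul_of_nonneg_right (h1 i hi.1 hiD) (by positivity)
    refine (sum_le_sum h2).trans ?_
    have h3 : ∑ i ∈ Ico i0 n, (A * 2 ^ i + R) * (1 + Real.log (D / 2 ^ i)) ^ 2 ≤
        ∑ i ∈ range n, (A * 2 ^ i + R) * (1 + Real.log (D / 2 ^ i)) ^ 2 := by
      apply sum_le_sum_of_subset_of_nonneg
      · intro i hi
        rw [mem_Ico] at hi
        rw [mem_range]
        exact hi.2
      · intro i _ _
        positivity
    refine h3.trans ?_
    have hnD : ∀ i < n, 2 ^ i ≤ D := by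
      intro i hi
      have h3 : 2 ^ i ≤ 2 ^ Nat.log 2 D := Nat.pow_le_pow_right (by norm_num) (by omega)
      exact h3.trans (Nat.pow_log_le_self 2 (by omega))
    have h4 := geo D n hnD
    have e1 : ∑ i ∈ range n, (A * 2 ^ i + R) * (1 + Real.log (D / 2 ^ i)) ^ 2 =
        A * ∑ i ∈ range n, (2:ℝ) ^ i * (1 + Real.log (D / 2 ^ i)) ^ 2 +
        R * ∑ i ∈ range n, (1 + Real.log (D / 2 ^ i)) ^ 2 := by
      rw [mul_sum, mul_sum, ← sum_add_distrib]
      apply sum_congr rfl
      intro i _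
      ring
    rw [e1]
    have h5 : ∑ i ∈ range n, ((1 + Real.log ((D:ℝ) / 2 ^ i)) ^ 2) ≤ ((Nat.log 2 D : ℝ) + 1) * (1 + Real.log (D:ℝ)) ^ 2 := by
      calc ∑ i ∈ range n, ((1 + Real.log ((D:ℝ) / 2 ^ i)) ^ 2) ≤ ∑ _i ∈ range n, ((1 + Real.log (D:ℝ)) ^ 2) := by
            apply sum_le_sum
            intro i hi
            rw [mem_range] at hi
            have h6 : ((2:ℝ) ^ i) ≤ D := by exact_mod_cast hnD i hi
            have hp1 : (1:ℝ) ≤ 2 ^ i := one_le_pow₀ (by norm_num)
            have h7 : 0 ≤ Real.log (D / 2 ^ i) := Real.log_nonneg (by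
              rw [le_div_iff₀ (by linarith)]; linarith)
            have h8 : Real.log (D / 2 ^ i) ≤ Real.log D := by
              apply Real.log_le_log (by positivity)
              exact div_le_self (by linarith) hp1
            gcongr
        _ = _ := by
            rw [sum_const, card_range, nsmul_eq_mul, hn]
            push_cast
            ring
    calc A * ∑ i ∈ range n, (2:ℝ) ^ i * (1 + Real.log (D / 2 ^ i)) ^ 2 +
        R * ∑ i ∈ range n, (1 + Real.log (D / 2 ^ i)) ^ 2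
        ≤ A * (15 * D) + R * ((Nat.log 2 D + 1) * (1 + Real.log D) ^ 2) := by gcongr
      _ = _ := by ring
  linarith

end Pool.Agent.H441R3.BV
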