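import Pool.Agent.H43.G.R_seed8.H441R3.BV.Avg
import Pool.Agent.H43.G.R_seed8.H300R2.WEH.FamB

/-!
Small conductors; the passage from characters to residue classes.
-/

set_option autoImplicit false

open Finset

namespace Pool.Agent.H441R3.BV

open Pool.Agent.H398R2.BV (Prim card_prim_le)
open Pool.Agent.Helper112
open Pool.Agent.H300R2.WEH
open Pool.Agent.H442R2.EHI (piAP lis)

lemma li_bound (y : ℝ) (hy2 : 2 ≤ y) :
    0 ≤ (∫ t in (2 : ℝ)..y, 1 / Real.log t) ∧ (∫ t in (2 : ℝ)..y, 1 / Real.log t) ≤ 2 * y := by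
  constructor
  · apply intervalIntegral.integral_nonneg hy2
    intro t ht
    have : 0 < Real.log t := Real.log_pos (by linarith [ht.1])
    positivity
  · have h := intervalIntegral.norm_integral_le_of_norm_le_const (a := (2 : ℝ)) (b := y)
      (f := fun t => 1 / Real.log t) (C := 2) (by
        intro t ht
        rw [Set.uIoc_of_le hy2] at ht
        have h3 : Real.log 2 ≤ Real.log t := Real.log_le_log (by norm_num) ht.1.le
        have := Real.log_two_gt_d9
        rw [Real.norm_eq_abs, abs_of_pos (by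
          have : 0 < Real.log t := by linarith
          positivity), div_le_iff₀ (by linarith)]
        linarith)
    rw [Real.norm_eq_abs, abs_of_nonneg (by linarith : (0:ℝ) ≤ y - 2)] at h
    have := le_abs_self (∫ t in (2 : ℝ)..y, 1 / Real.log t)
    linarith

/-- trivial bound for `err` -/
lemma err_triv (y : ℝ) (hy2 : 2 ≤ y) (d l : ℕ) (hd : 1 ≤ d) : err y d l ≤ 3 * y := by
  obtain ⟨h1, h2⟩ := li_bound y hy2
  have hφ : (1 : ℝ) ≤ Nat.totient d := by exact_mod_cast Nat.totient_pos.mpr (by omega)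
  have h3 : (piR y d l : ℝ) ≤ y := by
    have h4 : piR y d l ≤ ⌊y⌋₊ := by
      unfold piR
      refine (card_filter_le _ _).trans ?_
      simp
    exact (by exact_mod_cast h4 : (piR y d l : ℝ) ≤ ⌊y⌋₊).trans (Nat.floor_le (by linarith))
  have h5 : (∫ t in (2 : ℝ)..y, 1 / Real.log t) / (Nat.totient d : ℝ) ≤ 2 * y :=
    (div_le_self h1 hφ).trans h2
  have h6 : 0 ≤ (∫ t in (2 : ℝ)..y, 1 / Real.log t) / (Nat.totient d : ℝ) := by positivity
  have h7 : (0 : ℝ) ≤ (piR y d l : ℝ) := Nat.cast_nonneg _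
  unfold err
  rw [abs_le]
  constructor <;> linarith

lemma err_le_errMax (x d l N : ℕ) (hd : 1 ≤ d) (h2 : 2 ≤ N) (hN : N ≤ x) :
    err (N : ℝ) d l ≤ errMax x d l := by
  unfold errMax
  have hb : BddAbove (Set.range (fun y : Set.Icc (2 : ℝ) x => err y d l)) := by
    refine ⟨3 * x, ?_⟩
    rintro _ ⟨⟨y, hy⟩, rfl⟩
    refine (err_triv y hy.1 d l hd).trans ?_
    have := hy.2
    linarith
  exact le_ciSup hb (⟨(N : ℝ), by exact_mod_cast h2, by exact_mod_cast hN⟩ : Set.Icc (2 : ℝ) x)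

lemma sum_range_char (f : ℕ) [NeZero f] (g : ZMod f → ℂ) :
    ∑ a ∈ range f, g ((a : ℕ) : ZMod f) = ∑ x : ZMod f, g x := by
  symm
  apply sum_nbij' (fun x : ZMod f => x.val) (fun a : ℕ => (a : ZMod f))
  · intro x _
    rw [mem_range]
    exact ZMod.val_lt x
  · intro a _
    exact mem_univ _
  · intro x _
    exact ZMod.natCast_zmod_val x
  · intro a ha
    rw [mem_range] at ha
    exact ZMod.val_cast_of_lt ha
  · intro x _
    rw [ZMod.natCast_zmod_val]

/-- reduced residues -/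
def rr (f : ℕ) : Finset ℕ := (range f).filter (fun a => a.Coprime f)

lemma small_pt (x f N : ℕ) (hf : 2 ≤ f) (h2 : 2 ≤ N) (hN : N ≤ x) (ψ : DirichletCharacter ℂ f)
    (hψ : ψ ≠ 1) : ‖PS N f ψ‖ ≤ ∑ a ∈ rr f, errMax x f a := by
  have : NeZero f := ⟨by omega⟩
  have hφ : (0 : ℝ) < Nat.totient f := by exact_mod_cast Nat.totient_pos.mpr (by omega)
  set c : ℝ := (∫ t in (2 : ℝ)..(N:ℝ), 1 / Real.log t) / (Nat.totient f : ℝ) with hc
  have e1 : PS N f ψ = ∑ a ∈ range f, ψ ((a : ℕ) : ZMod f) * ((piR N f a : ℝ) : ℂ) := by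
    unfold PS
    have hmaps : ∀ n ∈ Icc 1 N, n % f ∈ range f := fun n _ => mem_range.2 (Nat.mod_lt _ (by omega))
    rw [← sum_fiberwise_of_maps_to hmaps]
    apply sum_congr rfl
    intro a ha
    rw [mem_range] at ha
    have e2 : (piR N f a : ℝ) = ∑ n ∈ (Icc 1 N).filter (fun n => n % f = a), (if n.Prime then (1:ℝ) else 0) := by
      unfold piR
      rw [Nat.floor_natCast, ← sum_filter, filter_filter]
      simp only [sum_const, nsmul_eq_mul, mul_one]
      congr 2
      ext n
      simp only [mem_filter, mem_Icc, Nat.ModEq, Nat.mod_eq_of_lt ha]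
      tauto
    rw [e2, Complex.ofReal_sum, mul_sum]
    apply sum_congr rfl
    intro n hn
    rw [mem_filter] at hn
    have : (n : ZMod f) = ((a : ℕ) : ZMod f) := by
      rw [ZMod.natCast_eq_natCast_iff, Nat.ModEq, hn.2, Nat.mod_eq_of_lt ha]
    rw [this]
    ring
  have e3 : ∑ a ∈ range f, ψ ((a : ℕ) : ZMod f) * ((c : ℝ) : ℂ) = 0 := by
    rw [← sum_mul, sum_range_char f (fun x => ψ x), MulChar.sum_eq_zero_of_ne_one hψ, zero_mul]
  have e4 : PS N f ψ = ∑ a ∈ range f, ψ ((a : ℕ) : ZMod f) * (((piR N f a : ℝ) - c : ℝ) : ℂ) := by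
    rw [e1, ← sub_zero (∑ a ∈ range f, ψ ((a : ℕ) : ZMod f) * ((piR N f a : ℝ) : ℂ)), ← e3,
      ← sum_sub_distrib]
    apply sum_congr rfl
    intro a _
    push_cast
    ring
  rw [e4]
  refine (norm_sum_le _ _).trans ?_
  unfold rr
  rw [sum_filter]
  apply sum_le_sum
  intro a _
  rw [norm_mul, Complex.norm_real, Real.norm_eq_abs]
  split_ifs with hco
  · have h1 : ‖ψ ((a : ℕ) : ZMod f)‖ ≤ 1 := ψ.norm_le_one _
    have h3 := err_le_errMax x f a N (by omega) h2 hN
    unfold err at h3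
    calc ‖ψ ((a : ℕ) : ZMod f)‖ * |(piR N f a : ℝ) - c| ≤ 1 * |(piR N f a : ℝ) - c| := by gcongr
      _ = |(piR N f a : ℝ) - c| := one_mul _
      _ ≤ _ := h3
  · rw [ψ.map_nonunit (by rwa [ZMod.isUnit_iff_coprime]), norm_zero, zero_mul]

/-- small conductors: total -/
theorem small_total (U b : ℕ) : ∃ x0 : ℕ, ∀ x : ℕ, x0 ≤ x → ∀ F0 : ℕ, (F0 : ℝ) ≤ Real.log x ^ b →
    ∀ NN : Finset ℕ, ∀ hne : NN.Nonempty, (∀ N ∈ NN, 2 ≤ N ∧ N ≤ x) →
    ∑ f ∈ Icc 2 F0, (1 / (Nat.totient f : ℝ)) * ∑ ψ ∈ Prim f, MX NN hne f ψ ≤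
      x / Real.log x ^ U := by
  obtain ⟨B, x1, h1⟩ := famMax (U + b)
  have ev1 : ∀ᶠ X : ℝ in Filter.atTop, Real.log X ^ (2 * b + B) ≤ X ^ (1 : ℝ) := by
    have := Pool.Agent.H398R2.BV.ev_log 1 (2 * b + B) 1 one_pos
    filter_upwards [this] with X hX
    linarith
  have ev2 : ∀ᶠ X : ℝ in Filter.atTop, (1 : ℝ) ≤ Real.log X :=
    Real.tendsto_log_atTop.eventually (Filter.eventually_ge_atTop 1)
  obtain ⟨Y, hY⟩ := Filter.eventually_atTop.mp (ev1.and ev2)
  refine ⟨max x1 (max ⌈Y⌉₊ 1), fun x hx F0 hF0 NN hne hNN => ?_⟩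
  have hx1 : x1 ≤ x := (le_max_left _ _).trans hx
  have hxY : Y ≤ x := (Nat.le_ceil Y).trans (by exact_mod_cast ((le_max_left _ _).trans (le_max_right _ _)).trans hx)
  have hx0 : 1 ≤ x := ((le_max_right _ _).trans (le_max_right _ _)).trans hx
  have hxr : (0:ℝ) < x := by exact_mod_cast hx0
  obtain ⟨g1, g2⟩ := hY x hxY
  rw [Real.rpow_one] at g1
  have hL0 : 0 < Real.log x := by linarith
  have hF0' : (F0:ℝ) ≤ x / Real.log x ^ B := by
    rw [le_div_iff₀ (by positivity)]
    calc (F0:ℝ) * Real.log x ^ B ≤ Real.log x ^ b * Real.log x ^ B := by gcongr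
      _ = Real.log x ^ (b + B) := by rw [pow_add]
      _ ≤ Real.log x ^ (2 * b + B) := pow_le_pow_right₀ g2 (by omega)
      _ ≤ x := g1
  have hA1 : (1:ℝ) ≤ Real.log x ^ b := one_le_pow₀ g2
  have hD2 : (F0:ℝ) ^ 2 ≤ Real.log x ^ b * x / Real.log x ^ B := by
    rw [le_div_iff₀ (by positivity)]
    calc (F0:ℝ) ^ 2 * Real.log x ^ B ≤ (Real.log x ^ b) ^ 2 * Real.log x ^ B := by gcongr
      _ = Real.log x ^ (2 * b + B) := by rw [← pow_mul, ← pow_add, mul_comm b 2]
      _ ≤ 1 * x := by linarith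
      _ ≤ Real.log x ^ b * x := by gcongr
  set Lf : ℕ → Finset ℕ := fun q => if q ≤ F0 then rr q else ∅ with hLf
  have hfam : H343E.Fam (Real.log x ^ b) Lf := by
    constructor
    · intro q a ha
      simp only [hLf] at ha
      split_ifs at ha
      · unfold rr at ha
        rw [mem_filter, mem_range] at ha
        exact ha
      · simp at ha
    · intro q
      simp only [hLf]
      split_ifs with h
      · have : (rr q).card ≤ q := by
          unfold rr
          refine (card_filter_le _ _).trans ?_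
          simp
        calc ((rr q).card : ℝ) ≤ q := by exact_mod_cast this
          _ ≤ F0 := by exact_mod_cast h
          _ ≤ _ := hF0
      · simp
        positivity
  have h3 := h1 x hx1 (Real.log x ^ b) hA1 F0 hF0' hD2 Lf hfam
  calc ∑ f ∈ Icc 2 F0, (1 / (Nat.totient f : ℝ)) * ∑ ψ ∈ Prim f, MX NN hne f ψ
      ≤ ∑ f ∈ Icc 2 F0, ∑ a ∈ rr f, errMax x f a := by
        apply sum_le_sum
        intro f hf
        rw [mem_Icc] at hf
        have hφ : (0 : ℝ) < Nat.totient f := by exact_mod_cast Nat.totient_pos.mpr (by omega)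
        have hc := card_prim_le (f := f) (by omega)
        have hS0 : 0 ≤ ∑ a ∈ rr f, errMax x f a := sum_nonneg fun a _ => errMax_nonneg _ _ _
        calc (1 / (Nat.totient f : ℝ)) * ∑ ψ ∈ Prim f, MX NN hne f ψ
            ≤ (1 / (Nat.totient f : ℝ)) * ∑ _ψ ∈ Prim f, ∑ a ∈ rr f, errMax x f a := by
              apply mul_le_mul_of_nonneg_left _ (by positivity)
              apply sum_le_sum
              intro ψ hψ
              apply Finset.sup'_le
              intro N hN
              exact small_pt x f N hf.1 (hNN N hN).1 (hNN N hN).2 ψ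
                (Pool.Agent.H398R2.BV.prim_ne_one hf.1 hψ)
          _ = (1 / (Nat.totient f : ℝ)) * (((Prim f).card : ℝ) * ∑ a ∈ rr f, errMax x f a) := by
              rw [sum_const, nsmul_eq_mul]
          _ ≤ (1 / (Nat.totient f : ℝ)) * ((Nat.totient f : ℝ) * ∑ a ∈ rr f, errMax x f a) := by
              gcongr
          _ = _ := by field_simp
    _ ≤ ∑ q ∈ Icc 1 F0, ∑ a ∈ Lf q, errMax x q a := by
        have : ∀ f ∈ Icc 2 F0, ∑ a ∈ rr f, errMax x f a = ∑ a ∈ Lf f, errMax x f a := by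
          intro f hf
          rw [mem_Icc] at hf
          simp only [hLf]
          rw [if_pos hf.2]
        rw [sum_congr rfl this]
        apply sum_le_sum_of_subset_of_nonneg
        · exact Icc_subset_Icc_left (by norm_num)
        · intro q _ _
          exact sum_nonneg fun a _ => errMax_nonneg _ _ _
    _ ≤ Real.log x ^ b * x / Real.log x ^ (U + b) := h3
    _ = x / Real.log x ^ U := by
        rw [pow_add]
        field_simp

lemma PS_change (N d f : ℕ) (hd : d ≠ 0) (h : f ∣ d) (ψ : DirichletCharacter ℂ f) :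
    ‖PS N d (DirichletCharacter.changeLevel h ψ)‖ ≤ ‖PS N f ψ‖ + d.primeFactors.card := by
  classical
  have e1 : PS N f ψ - PS N d (DirichletCharacter.changeLevel h ψ) =
      ∑ n ∈ Icc 1 N, (if n.Prime ∧ ¬ n.Coprime d then ψ (n : ZMod f) else 0) := by
    unfold PS
    rw [← sum_sub_distrib]
    apply sum_congr rfl
    intro n _
    by_cases hp : n.Prime
    · rw [if_pos hp]
      by_cases hc : n.Coprime d
      · rw [if_neg (by tauto)]
        have h1 := DirichletCharacter.changeLevel_eq_cast_of_dvd' ψ h (a := (n : ℤ))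
          (by exact_mod_cast Nat.isCoprime_iff_coprime.mpr hc)
        push_cast at h1
        rw [h1]
        simp
      · have h0 : (DirichletCharacter.changeLevel h ψ) (n : ZMod d) = 0 :=
          MulChar.map_nonunit _ (by rwa [ZMod.isUnit_iff_coprime])
        rw [if_pos ⟨hp, hc⟩, h0]
        simp
    · rw [if_neg hp, if_neg (by tauto)]
      simp
  have e2 : ‖PS N f ψ - PS N d (DirichletCharacter.changeLevel h ψ)‖ ≤ d.primeFactors.card := by
    rw [e1]
    refine (norm_sum_le _ _).trans ?_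
    calc ∑ n ∈ Icc 1 N, ‖(if n.Prime ∧ ¬ n.Coprime d then ψ (n : ZMod f) else 0)‖
        ≤ ∑ n ∈ Icc 1 N, (if n.Prime ∧ ¬ n.Coprime d then (1:ℝ) else 0) := by
          apply sum_le_sum
          intro n _
          split_ifs
          · exact ψ.norm_le_one _
          · simp
      _ = (((Icc 1 N).filter (fun n => n.Prime ∧ ¬ n.Coprime d)).card : ℝ) := by rw [sum_boole]
      _ ≤ d.primeFactors.card := by
          have : (Icc 1 N).filter (fun n => n.Prime ∧ ¬ n.Coprime d) ⊆ d.primeFactors := by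
            intro n hn
            rw [mem_filter] at hn
            rw [Nat.mem_primeFactors]
            refine ⟨hn.2.1, ?_, hd⟩
            by_contra hcon
            exact hn.2.2 ((Nat.Prime.coprime_iff_not_dvd hn.2.1).2 hcon)
          exact_mod_cast card_le_card this
  have := norm_sub_norm_le (PS N d (DirichletCharacter.changeLevel h ψ)) (PS N f ψ)
  rw [norm_sub_rev] at this
  linarith

/-- residue classes from primitive characters -/
theorem class_bound (d N a : ℕ) (hd : 1 ≤ d) (ha : a.Coprime d) (NN : Finset ℕ)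
    (hne : NN.Nonempty) (hN : N ∈ NN) :
    |piAP N d a - lis N / (Nat.totient d : ℝ)| ≤
      (1 / (Nat.totient d : ℝ)) * ∑ f ∈ d.divisors.filter (fun f => f ≠ 1),
        ∑ ψ ∈ Prim f, MX NN hne f ψ + 2 * d.primeFactors.card +
      |(((Icc 1 N).filter (fun p : ℕ => p.Prime)).card : ℝ) - lis N| / (Nat.totient d : ℝ) := by
  classical
  have : NeZero d := ⟨by omega⟩
  have hφ1 : (1 : ℝ) ≤ Nat.totient d := by exact_mod_cast Nat.totient_pos.mpr (by omega)
  have hφ : (0 : ℝ) < Nat.totient d := by linarith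
  set w : ℝ := (d.primeFactors.card : ℝ) with hw
  set pd : ℝ := (((Icc 1 N).filter (fun p : ℕ => p.Prime ∧ p.Coprime d)).card : ℝ) with hpd
  set p1 : ℝ := (((Icc 1 N).filter (fun p : ℕ => p.Prime)).card : ℝ) with hp1
  -- step 1
  have s1 : |piAP N d a - pd / (Nat.totient d : ℝ)| ≤ (1 / (Nat.totient d : ℝ)) *
      ∑ χ ∈ (univ : Finset (DirichletCharacter ℂ d)).filter (fun χ => χ ≠ 1), ‖PS N d χ‖ := by
    have e1 : piAP N d a - pd / (Nat.totient d : ℝ) =
        ∑ n ∈ Icc 1 N, (if n.Prime then (1:ℝ) else 0) * ((if n ≡ a [MOD d] then (1 : ℝ) else 0) -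
        (if n.Coprime d then (1 : ℝ) / (Nat.totient d : ℝ) else 0)) := by
      have e2 : piAP N d a = ∑ n ∈ Icc 1 N, (if n.Prime then (1:ℝ) else 0) * (if n ≡ a [MOD d] then (1 : ℝ) else 0) := by
        unfold piAP
        rw [← sum_boole]
        apply sum_congr rfl
        intro n _
        by_cases h1 : n.Prime <;> by_cases h2 : n ≡ a [MOD d] <;> simp [h1, h2]
      have e3 : pd / (Nat.totient d : ℝ) = ∑ n ∈ Icc 1 N, (if n.Prime then (1:ℝ) else 0) *
          (if n.Coprime d then (1 : ℝ) / (Nat.totient d : ℝ) else 0) := by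
        rw [hpd, ← sum_boole, sum_div]
        apply sum_congr rfl
        intro n _
        by_cases h1 : n.Prime
        · by_cases h2 : n.Coprime d
          · rw [if_pos ⟨h1, h2⟩, if_pos h1, if_pos h2]; ring
          · rw [if_neg (by tauto), if_neg h2]; ring
        · rw [if_neg (by tauto), if_neg h1]; ring
      rw [e2, e3, ← sum_sub_distrib]
      apply sum_congr rfl
      intro n _
      ring
    have e2 : ((∑ n ∈ Icc 1 N, (if n.Prime then (1:ℝ) else 0) * ((if n ≡ a [MOD d] then (1 : ℝ) else 0) -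
        (if n.Coprime d then (1 : ℝ) / (Nat.totient d : ℝ) else 0)) : ℝ) : ℂ) =
        (1 / (Nat.totient d : ℂ)) *
        ∑ χ ∈ (univ : Finset (DirichletCharacter ℂ d)).filter (fun χ => χ ≠ 1),
          χ ((a : ZMod d)⁻¹) * PS N d χ := by
      rw [Complex.ofReal_sum]
      have : ∀ n ∈ Icc 1 N, (((if n.Prime then (1:ℝ) else 0) * ((if n ≡ a [MOD d] then (1 : ℝ) else 0) -
        (if n.Coprime d then (1 : ℝ) / (Nat.totient d : ℝ) else 0)) : ℝ) : ℂ) =
          ∑ χ ∈ (univ : Finset (DirichletCharacter ℂ d)).filter (fun χ => χ ≠ 1),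
            (1 / (Nat.totient d : ℂ)) * (χ ((a : ZMod d)⁻¹) *
              (((if n.Prime then (1:ℝ) else 0 : ℝ) : ℂ) * χ (n : ZMod d))) := by
        intro n _
        rw [Complex.ofReal_mul, BLB.bracket d a ha n, mul_sum, mul_sum]
        apply sum_congr rfl
        intro χ _
        ring
      rw [sum_congr rfl this, sum_comm, mul_sum]
      apply sum_congr rfl
      intro χ _
      unfold PS
      rw [mul_sum, mul_sum]
    rw [e1, ← Real.norm_eq_abs, ← Complex.norm_real, e2, norm_mul]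
    have h1 : ‖(1 / (Nat.totient d : ℂ))‖ = 1 / (Nat.totient d : ℝ) := by
      rw [norm_div, norm_one, Complex.norm_natCast]
    rw [h1]
    apply mul_le_mul_of_nonneg_left _ (by positivity)
    refine (norm_sum_le _ _).trans (sum_le_sum ?_)
    intro χ _
    rw [norm_mul]
    have : ‖χ ((a : ZMod d)⁻¹)‖ ≤ 1 := χ.norm_le_one _
    calc ‖χ ((a : ZMod d)⁻¹)‖ * ‖PS N d χ‖ ≤ 1 * ‖PS N d χ‖ :=
          mul_le_mul_of_nonneg_right this (norm_nonneg _)
      _ = _ := one_mul _
  -- step 2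
  have s2 : ∑ χ ∈ (univ : Finset (DirichletCharacter ℂ d)).filter (fun χ => χ ≠ 1), ‖PS N d χ‖ ≤
      ∑ f ∈ d.divisors.filter (fun f => f ≠ 1), ∑ ψ ∈ Prim f, MX NN hne f ψ +
        (Nat.totient d : ℝ) * w := by
    have h1 := BLB.step2 d (fun χ => max (‖PS N d χ‖ - w) 0) (fun χ => le_max_right _ _)
      (fun f ψ => MX NN hne f ψ) (by
        intro f hf ψ
        apply max_le _ (MX_nonneg _ _ _ _)
        have h2 := PS_change N d f (by omega) hf ψ
        have h3 := le_MX NN hne f ψ hN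
        linarith)
    have h4 : ∀ χ ∈ (univ : Finset (DirichletCharacter ℂ d)).filter (fun χ => χ ≠ 1),
        ‖PS N d χ‖ ≤ max (‖PS N d χ‖ - w) 0 + w := by
      intro χ _
      have := le_max_left (‖PS N d χ‖ - w) 0
      linarith
    refine (sum_le_sum h4).trans ?_
    rw [sum_add_distrib, sum_const, nsmul_eq_mul]
    have h5 : (((univ : Finset (DirichletCharacter ℂ d)).filter (fun χ => χ ≠ 1)).card : ℝ) ≤
        (Nat.totient d : ℝ) := by
      have h6 := DirichletCharacter.card_eq_totient_of_hasEnoughRootsOfUnity ℂ d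
      rw [← h6, Nat.card_eq_fintype_card]
      exact_mod_cast (card_filter_le _ _)
    have hw0 : 0 ≤ w := Nat.cast_nonneg _
    exact add_le_add h1 (mul_le_mul_of_nonneg_right h5 hw0)
  -- step 3
  have s3 : |pd - p1| ≤ w := by
    have h1 : p1 = pd + (((Icc 1 N).filter (fun n => n.Prime ∧ ¬ n.Coprime d)).card : ℝ) := by
      rw [hp1, hpd, ← sum_boole, ← sum_boole, ← sum_boole, ← sum_add_distrib]
      apply sum_congr rfl
      intro n _
      by_cases h1 : n.Prime <;> by_cases h2 : n.Coprime d <;> simp [h1, h2]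
    have h2 : (((Icc 1 N).filter (fun n => n.Prime ∧ ¬ n.Coprime d)).card : ℝ) ≤ w := by
      have : (Icc 1 N).filter (fun n => n.Prime ∧ ¬ n.Coprime d) ⊆ d.primeFactors := by
        intro n hn
        rw [mem_filter] at hn
        rw [Nat.mem_primeFactors]
        refine ⟨hn.2.1, ?_, by omega⟩
        by_contra hcon
        exact hn.2.2 ((Nat.Prime.coprime_iff_not_dvd hn.2.1).2 hcon)
      rw [hw]
      exact_mod_cast card_le_card this
    have h3 : (0:ℝ) ≤ (((Icc 1 N).filter (fun n => n.Prime ∧ ¬ n.Coprime d)).card : ℝ) :=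
      Nat.cast_nonneg _
    rw [abs_le]
    constructor <;> linarith
  have hw0 : 0 ≤ w := Nat.cast_nonneg _
  have e : piAP N d a - lis N / (Nat.totient d : ℝ) = (piAP N d a - pd / (Nat.totient d : ℝ)) +
      (pd - p1) / (Nat.totient d : ℝ) + (p1 - lis N) / (Nat.totient d : ℝ) := by ring
  rw [e]
  refine (abs_add_le _ _).trans ?_
  have t1 := abs_add_le (piAP N d a - pd / (Nat.totient d : ℝ)) ((pd - p1) / (Nat.totient d : ℝ))
  have t2 : |(pd - p1) / (Nat.totient d : ℝ)| ≤ w := by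
    rw [abs_div, abs_of_pos hφ, div_le_iff₀ hφ]
    nlinarith
  have t3 : |(p1 - lis N) / (Nat.totient d : ℝ)| = |p1 - lis N| / (Nat.totient d : ℝ) := by
    rw [abs_div, abs_of_pos hφ]
  have t4 : (1 / (Nat.totient d : ℝ)) *
      ∑ χ ∈ (univ : Finset (DirichletCharacter ℂ d)).filter (fun χ => χ ≠ 1), ‖PS N d χ‖ ≤
      (1 / (Nat.totient d : ℝ)) * ∑ f ∈ d.divisors.filter (fun f => f ≠ 1),
        ∑ ψ ∈ Prim f, MX NN hne f ψ + w := by
    calc _ ≤ (1 / (Nat.totient d : ℝ)) * (∑ f ∈ d.divisors.filter (fun f => f ≠ 1),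
        ∑ ψ ∈ Prim f, MX NN hne f ψ + (Nat.totient d : ℝ) * w) :=
          mul_le_mul_of_nonneg_left s2 (by positivity)
      _ = _ := by field_simp
  rw [t3]
  linarith

end Pool.Agent.H441R3.BV
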