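import Pool.Agent.H43.G.R_seed8.H441R3.BV.Char

/-!
Average over the primitive characters of conductor in `(F, 2F]`.
-/

set_option autoImplicit false

open Finset

namespace Pool.Agent.H441R3.BV

open Pool.Agent.H398R2.BV (Prim card_prim_le)
open Pool.Agent.Helper112

/-- maximum over a finite set of end points -/
noncomputable def MX (NN : Finset ℕ) (hN : NN.Nonempty) (f : ℕ) (ψ : DirichletCharacter ℂ f) : ℝ :=
  NN.sup' hN (fun N => ‖PS N f ψ‖)

lemma le_MX (NN : Finset ℕ) (hN : NN.Nonempty) (f : ℕ) (ψ : DirichletCharacter ℂ f) {N : ℕ}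
    (h : N ∈ NN) : ‖PS N f ψ‖ ≤ MX NN hN f ψ :=
  Finset.le_sup' (fun N => ‖PS N f ψ‖) h

lemma MX_nonneg (NN : Finset ℕ) (hN : NN.Nonempty) (f : ℕ) (ψ : DirichletCharacter ℂ f) :
    0 ≤ MX NN hN f ψ := by
  obtain ⟨N, h⟩ := hN
  exact (norm_nonneg _).trans (le_MX NN ⟨N, h⟩ f ψ h)

/-- weighted average -/
noncomputable def Av (F : ℕ) (E : (f : ℕ) → DirichletCharacter ℂ f → ℝ) : ℝ :=
  ∑ f ∈ Ioc F (2 * F), (1 / (Nat.totient f : ℝ)) * ∑ ψ ∈ Prim f, E f ψ

lemma Av_mono {F : ℕ} {E G : (f : ℕ) → DirichletCharacter ℂ f → ℝ}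
    (h : ∀ f ∈ Ioc F (2 * F), ∀ ψ ∈ Prim f, E f ψ ≤ G f ψ) : Av F E ≤ Av F G := by
  unfold Av
  apply sum_le_sum
  intro f hf
  apply mul_le_mul_of_nonneg_left _ (by positivity)
  exact sum_le_sum fun ψ hψ => h f hf ψ hψ

lemma Av_add (F : ℕ) (E G : (f : ℕ) → DirichletCharacter ℂ f → ℝ) :
    Av F (fun f ψ => E f ψ + G f ψ) = Av F E + Av F G := by
  unfold Av
  rw [← sum_add_distrib]
  apply sum_congr rfl
  intro f _
  rw [sum_add_distrib, mul_add]

lemma Av_sum {ι : Type*} (F : ℕ) (s : Finset ι) (E : ι → (f : ℕ) → DirichletCharacter ℂ f → ℝ) :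
    Av F (fun f ψ => ∑ i ∈ s, E i f ψ) = ∑ i ∈ s, Av F (E i) := by
  unfold Av
  rw [sum_comm]
  apply sum_congr rfl
  intro f _
  rw [sum_comm, mul_sum]

lemma Av_smul (F : ℕ) (c : ℝ) (E : (f : ℕ) → DirichletCharacter ℂ f → ℝ) :
    Av F (fun f ψ => c * E f ψ) = c * Av F E := by
  unfold Av
  rw [mul_sum]
  apply sum_congr rfl
  intro f _
  rw [← mul_sum]
  ring

lemma Av_const (F : ℕ) (c : ℝ) (hc : 0 ≤ c) : Av F (fun _ _ => c) ≤ F * c := by
  unfold Av
  calc ∑ f ∈ Ioc F (2 * F), (1 / (Nat.totient f : ℝ)) * ∑ _ψ ∈ Prim f, c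
      ≤ ∑ _f ∈ Ioc F (2 * F), c := by
        apply sum_le_sum
        intro f hf
        rw [mem_Ioc] at hf
        have h1 := card_prim_le (f := f) (by omega)
        have h2 : 0 < Nat.totient f := Nat.totient_pos.2 (by omega)
        have h3 : (0:ℝ) < Nat.totient f := by exact_mod_cast h2
        rw [sum_const, nsmul_eq_mul]
        calc 1 / (Nat.totient f : ℝ) * (((Prim f).card : ℝ) * c) ≤
            1 / (Nat.totient f : ℝ) * ((Nat.totient f : ℝ) * c) := by gcongr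
          _ = c := by field_simp
    _ = F * c := by
        rw [sum_const, Nat.card_Ioc, nsmul_eq_mul]
        congr 2
        omega

/-- average of the main term -/
lemma Av_Mn (z H x X F J K : ℕ) (hH : 0 < H) (hF : 0 < F) (hX : X ≤ x)
    (hK : ∀ p ∈ Icc 1 X, kap H p < K) :
    Av F (fun f ψ => Mn z H x X F J K f ψ) ≤
      48 * J * F * SS z x * Real.sqrt (x * (1 + 2 * X / (F : ℝ) ^ 2 + x / (F : ℝ) ^ 4)) := by
  have hF0 : (0:ℝ) < F := by exact_mod_cast hF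
  set Y := Real.sqrt (x * (1 + 2 * X / (F : ℝ) ^ 2 + x / (F : ℝ) ^ 4)) with hY
  have hS := SS_nonneg z x
  unfold Mn
  rw [Av_sum]
  have h1 : ∀ j ∈ range J, Av F (fun f ψ => 2 * (Y *
    (Real.sqrt (∑ i ∈ range K, wt H X F j i *
      ‖cell (Icc 1 X) (kap H) (fun p => ((av z p : ℝ) : ℂ) * ψ (p : ZMod f)) j i‖ ^ 2) *
    Real.sqrt (∑ i ∈ range K, wt H X F j i *
      ‖cell (Icc 1 X) (kap H) (fun p => ((bv z p : ℝ) : ℂ) * ψ (p : ZMod f)) j i‖ ^ 2)))) ≤
      48 * F * SS z x * Y := by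
    intro j _
    rw [Av_smul, Av_smul]
    have hA := level_ls H X F j K hH hF hK (av z)
    have hB := level_ls H X F j K hH hF hK (bv z)
    have hA' := hA.trans (mul_le_mul_of_nonneg_left (sum_av z X x hX) (by positivity))
    have hB' := hB.trans (mul_le_mul_of_nonneg_left (sum_bv z X x hX) (by positivity))
    have h := cs_char F hF
      (fun f ψ => ∑ i ∈ range K, wt H X F j i *
        ‖cell (Icc 1 X) (kap H) (fun p => ((av z p : ℝ) : ℂ) * ψ (p : ZMod f)) j i‖ ^ 2)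
      (fun f ψ => ∑ i ∈ range K, wt H X F j i *
        ‖cell (Icc 1 X) (kap H) (fun p => ((bv z p : ℝ) : ℂ) * ψ (p : ZMod f)) j i‖ ^ 2)
      (fun f ψ => sum_nonneg fun i _ => mul_nonneg (wt_pos _ _ _ _ _).le (by positivity))
      (fun f ψ => sum_nonneg fun i _ => mul_nonneg (wt_pos _ _ _ _ _).le (by positivity)) _ _ hA' hB'
    rw [Real.sqrt_mul_self (by positivity)] at h
    have h2 : (1 / (F:ℝ)) * (24 * (F:ℝ) ^ 2 * SS z x) = 24 * F * SS z x := by
      field_simp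
    rw [h2] at h
    have hY0 : 0 ≤ Y := Real.sqrt_nonneg _
    calc 2 * (Y * Av F _) ≤ 2 * (Y * (24 * F * SS z x)) := by
          apply mul_le_mul_of_nonneg_left _ (by norm_num)
          exact mul_le_mul_of_nonneg_left h hY0
      _ = _ := by ring
  refine (sum_le_sum h1).trans (le_of_eq ?_)
  rw [sum_const, card_range, nsmul_eq_mul]
  ring

/-- **the average of the maximum** -/
theorem Av_MX (z W H x X F J K : ℕ) (NN : Finset ℕ) (hne : NN.Nonempty) (hNN : ∀ N ∈ NN, N ≤ x)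
    (hz : 2 ≤ z) (hW : 1 ≤ W) (hH : 0 < H) (hF : 0 < F)
    (hX : X = x / z) (hx : 1 ≤ x) (hK : ∀ p ∈ Icc 1 X, kap H p < K)
    (hJ : kap H x < 2 * 2 ^ J) :
    Av F (fun f ψ => MX NN hne f ψ) ≤
      F * (z + 1) + F * (W * (Real.sqrt (2 * F) * (1 + Real.log (2 * F)))) +
      NN.card * (5 * Real.sqrt ((x + 4 * (F:ℝ) ^ 2) *
          ((4:ℝ) ^ (-(Real.log W / Real.log z)) * (x * (1 + Real.log x) ^ 16))) +
        5 * Real.sqrt ((x + 4 * (F:ℝ) ^ 2) * (2 * x / z)) +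
        5 * Real.sqrt ((x + 4 * (F:ℝ) ^ 2) * (2 * x / H + 1))) +
      48 * J * F * SS z x * Real.sqrt (x * (1 + 2 * X / (F : ℝ) ^ 2 + x / (F : ℝ) ^ 4)) := by
  have hF0 : (0:ℝ) < F := by exact_mod_cast hF
  have hF1 : (1:ℝ) ≤ F := by exact_mod_cast hF
  have hH0 : (0:ℝ) < H := by exact_mod_cast hH
  have hXx : X ≤ x := by rw [hX]; exact Nat.div_le_self _ _
  have hcst : 0 ≤ W * (Real.sqrt (2 * F) * (1 + Real.log (2 * F))) := by
    have : 0 ≤ Real.log (2 * F) := Real.log_nonneg (by linarith)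
    positivity
  have h1 : Av F (fun f ψ => MX NN hne f ψ) ≤ Av F (fun f ψ => ((((z + 1 : ℝ) +
      W * (Real.sqrt (2 * F) * (1 + Real.log (2 * F)))) +
      ∑ N ∈ NN, ((‖GS (gw z W) N f ψ‖ + ‖GS (sv z) N f ψ‖) + ‖GS (gb z H (kap H N)) N f ψ‖)) +
      Mn z H x X F J K f ψ)) := by
    apply Av_mono
    intro f hf ψ hψ
    rw [mem_Ioc] at hf
    have hψ' : ψ.IsPrimitive := by
      classical
      unfold Prim at hψ
      exact (mem_filter.1 hψ).2
    apply Finset.sup'_le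
    intro N hN
    have h := PS_le z W H x X F J K N f hz hH hF hX (hNN N hN) hx hK hJ (by omega) ψ hψ'
    have h2 : Real.sqrt f * (1 + Real.log f) ≤ Real.sqrt (2 * F) * (1 + Real.log (2 * F)) := by
      have hf0 : (0:ℝ) < f := by
        have : 0 < f := by omega
        exact_mod_cast this
      have hfF : (f:ℝ) ≤ 2 * F := by exact_mod_cast hf.2
      have hlf : 0 ≤ Real.log f := Real.log_natCast_nonneg f
      have := Real.log_le_log hf0 hfF
      apply mul_le_mul (Real.sqrt_le_sqrt hfF) (by linarith) (by linarith) (Real.sqrt_nonneg _)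
    have h3 : (W:ℝ) * (Real.sqrt f * (1 + Real.log f)) ≤
        W * (Real.sqrt (2 * F) * (1 + Real.log (2 * F))) :=
      mul_le_mul_of_nonneg_left h2 (Nat.cast_nonneg _)
    have h4 : (‖GS (gw z W) N f ψ‖ + ‖GS (sv z) N f ψ‖) + ‖GS (gb z H (kap H N)) N f ψ‖ ≤
        ∑ N ∈ NN, ((‖GS (gw z W) N f ψ‖ + ‖GS (sv z) N f ψ‖) + ‖GS (gb z H (kap H N)) N f ψ‖) :=
      single_le_sum (f := fun N => ((‖GS (gw z W) N f ψ‖ + ‖GS (sv z) N f ψ‖) +
        ‖GS (gb z H (kap H N)) N f ψ‖)) (fun N _ => by positivity) hN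
    linarith
  refine h1.trans ?_
  rw [Av_add, Av_add, Av_sum, Av_add]
  have a1 := Av_const F (z + 1 : ℝ) (by positivity)
  have a2 := Av_const F (W * (Real.sqrt (2 * F) * (1 + Real.log (2 * F)))) hcst
  have a3 := Av_Mn z H x X F J K hH hF hXx hK
  have a4 : ∑ N ∈ NN, Av F (fun f ψ => (‖GS (gw z W) N f ψ‖ + ‖GS (sv z) N f ψ‖) +
      ‖GS (gb z H (kap H N)) N f ψ‖) ≤
      NN.card * (5 * Real.sqrt ((x + 4 * (F:ℝ) ^ 2) *
          ((4:ℝ) ^ (-(Real.log W / Real.log z)) * (x * (1 + Real.log x) ^ 16))) +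
        5 * Real.sqrt ((x + 4 * (F:ℝ) ^ 2) * (2 * x / z)) +
        5 * Real.sqrt ((x + 4 * (F:ℝ) ^ 2) * (2 * x / H + 1))) := by
    rw [← nsmul_eq_mul]
    apply sum_le_card_nsmul
    intro N hN
    have hNx := hNN N hN
    have hNx' : (N:ℝ) ≤ x := by exact_mod_cast hNx
    rw [Av_add, Av_add]
    have hz0 : (0:ℝ) < z := by
      have : 0 < z := by omega
      exact_mod_cast this
    have hmono : ∀ g : ℕ → ℝ, ∑ n ∈ Icc 1 N, g n ^ 2 ≤ ∑ n ∈ Icc 1 x, g n ^ 2 := fun g =>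
      sum_le_sum_of_subset_of_nonneg (Icc_subset_Icc_right hNx) fun _ _ _ => by positivity
    have g1 := ms_char F N hF (gw z W) _ ((hmono _).trans (sum_gw z W x hz hW))
    have g2 := ms_char F N hF (sv z) _ ((hmono _).trans (sum_sv z x hz))
    have g3 := ms_char F N hF (gb z H (kap H N)) (2 * x / H + 1)
      ((sum_gb z H N hH).trans (by gcongr))
    have hl : 0 ≤ Real.log x := Real.log_natCast_nonneg x
    have m : ∀ S : ℝ, 0 ≤ S → 5 * Real.sqrt ((N + 4 * (F:ℝ) ^ 2) * S) ≤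
        5 * Real.sqrt ((x + 4 * (F:ℝ) ^ 2) * S) := by
      intro S hS
      apply mul_le_mul_of_nonneg_left _ (by norm_num)
      apply Real.sqrt_le_sqrt
      gcongr
    have g1' := g1.trans (m _ (by positivity))
    have g2' := g2.trans (m _ (by positivity))
    have g3' := g3.trans (m _ (by positivity))
    unfold Av GS
    linarith
  linarith

end Pool.Agent.H441R3.BV
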