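import Pool.Agent.H43.G.R_seed8.H441R3.BV.Avg

/-!
Choice of the parameters.
-/

set_option autoImplicit false

open Finset

namespace Pool.Agent.H441R3.BV

open Pool.Agent.H398R2.BV (Prim card_prim_le)

lemma one_le_log {l : ℕ} (hl : 3 ≤ l) : 1 ≤ Real.log l := by
  rw [Real.le_log_iff_exp_le (by positivity)]
  have h1 := Real.exp_one_lt_d9
  have h2 : (3:ℝ) ≤ l := by exact_mod_cast hl
  linarith

/-- choice of `z` and `W = z ^ m` -/
lemma zfacts (q h l : ℕ) (hq : 1 ≤ q) (hh : 1 ≤ h) (hl : 3 ≤ l)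
    (hK : 48 * q * h * Real.log l ^ 2 ≤ l) :
    ∃ z m : ℕ, 2 ≤ z ∧ 1 ≤ m ∧ (m:ℝ) ≤ 3 * q * Real.log l ∧ 2 * q * Real.log l ≤ m ∧
      (l:ℝ) ^ h ≤ z ∧ (z:ℝ) ^ m ≤ Real.exp (l / 8) ∧ (l:ℝ) / (16 * m) ≤ Real.log z ∧
      (z:ℝ) ≤ Real.exp (l / 8) := by
  have hl3 : (3:ℝ) ≤ l := by exact_mod_cast hl
  have hl0 : (0:ℝ) < l := by linarith
  have hv1 := one_le_log hl
  set v := Real.log l with hv
  have hq1 : (1:ℝ) ≤ q := by exact_mod_cast hq
  have hh1 : (1:ℝ) ≤ h := by exact_mod_cast hh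
  set m := ⌈2 * (q:ℝ) * v⌉₊ with hm
  have hqv : 1 ≤ (q:ℝ) * v := by nlinarith
  have hm1 : 2 * (q:ℝ) * v ≤ m := Nat.le_ceil _
  have hm2 : (m:ℝ) ≤ 3 * q * v := by
    have := Nat.ceil_lt_add_one (show 0 ≤ 2 * (q:ℝ) * v by positivity)
    linarith
  have hm3 : (1:ℝ) ≤ m := by linarith
  have hm4 : 1 ≤ m := by exact_mod_cast hm3
  have hm0 : (0:ℝ) < m := by linarith
  have hv0 : 0 < v := by linarith
  -- 2 h v ≤ l / (8 m)
  have h1 : 2 * h * v ≤ l / (8 * m) := by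
    rw [le_div_iff₀ (by positivity)]
    calc 2 * h * v * (8 * m) = 16 * h * v * m := by ring
      _ ≤ 16 * h * v * (3 * q * v) := by gcongr
      _ = 48 * q * h * v ^ 2 := by ring
      _ ≤ l := hK
  set r := Real.exp (l / (16 * m)) with hr
  have hr2 : r ^ 2 = Real.exp (l / (8 * m)) := by
    rw [hr, ← Real.exp_nat_mul]
    congr 1
    push_cast
    field_simp
    ring
  have hrl : (l:ℝ) ^ h ≤ r := by
    have : (l:ℝ) ^ h = Real.exp (h * v) := by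
      rw [hv, Real.exp_nat_mul, Real.exp_log hl0]
    rw [this, hr]
    apply Real.exp_le_exp.2
    have : (l:ℝ) / (16 * m) = (l / (8 * m)) / 2 := by field_simp; ring
    rw [this]
    linarith
  have hr3 : 3 ≤ r := by
    refine le_trans ?_ hrl
    calc (3:ℝ) ≤ l := hl3
      _ = (l:ℝ) ^ 1 := (pow_one _).symm
      _ ≤ (l:ℝ) ^ h := pow_le_pow_right₀ (by linarith) hh
  set z := ⌊r ^ 2⌋₊ with hz
  have hz1 : (z:ℝ) ≤ r ^ 2 := Nat.floor_le (by positivity)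
  have hz2 : r ≤ z := by
    have := Nat.lt_floor_add_one (r ^ 2)
    rw [← hz] at this
    nlinarith
  have hzm : (z:ℝ) ^ m ≤ Real.exp (l / 8) := by
    calc (z:ℝ) ^ m ≤ (r ^ 2) ^ m := by gcongr
      _ = Real.exp (l / 8) := by
          rw [hr2, ← Real.exp_nat_mul]
          congr 1
          field_simp
  refine ⟨z, m, ?_, hm4, hm2, hm1, hrl.trans hz2, hzm, ?_, ?_⟩
  · have : (2:ℝ) ≤ z := by linarith
    exact_mod_cast this
  · have := Real.log_le_log (by linarith : 0 < r) hz2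
    rwa [hr, Real.log_exp] at this
  · refine le_trans ?_ hzm
    calc (z:ℝ) = (z:ℝ) ^ 1 := (pow_one _).symm
      _ ≤ (z:ℝ) ^ m := pow_le_pow_right₀ (by linarith) hm4

lemma lcube {l : ℕ} {c : ℝ} (n : ℕ) (hl : 1 ≤ (l:ℝ)) (hn : 1 ≤ n) (hc : c ≤ l) : c ≤ (l:ℝ) ^ n := by
  refine hc.trans ?_
  calc (l:ℝ) = (l:ℝ) ^ 1 := (pow_one _).symm
    _ ≤ (l:ℝ) ^ n := pow_le_pow_right₀ hl hn

lemma lin1 (l : ℝ) (h : 2 ≤ l) : l + 1 ≤ l * l := by nlinarith

lemma lin2 (A B T : ℝ) (hA : 0 ≤ A) (hB : 0 ≤ B) (hT : T ≤ A ^ 2) :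
    1 + T + B ^ 2 ≤ (1 + A + B) ^ 2 := by
  nlinarith [mul_nonneg hA hB]

lemma lin3 (q h v l : ℝ) (hq : 9 ≤ q) (hh : 4 ≤ h) (hK : 48 * q * h * v ^ 2 ≤ l) : v ^ 2 ≤ l := by
  have e1 : 1 ≤ 48 * q * h := by nlinarith
  have e2 : 0 ≤ v ^ 2 := sq_nonneg _
  nlinarith

theorem level_core (V g l x F : ℕ) (C : ℝ)
    (hC : C = 9216 * ((2 * (g + V + 2) : ℕ) + 2) * ((g + V + 9 : ℕ) : ℝ))
    (hlC : 4000 + 3 * C ≤ l)
    (hK : 48 * ((g + V + 9 : ℕ) : ℝ) * ((2 * (g + V + 2) : ℕ) : ℝ) * Real.log l ^ 2 ≤ l)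
    (hE : (l:ℝ) ^ (V + 3) ≤ Real.exp (l / 8))
    (h1 : (l:ℝ) ≤ Real.log x) (h2 : Real.log x < l + 1)
    (NN : Finset ℕ) (hne : NN.Nonempty) (hNN : ∀ N ∈ NN, N ≤ x)
    (hcard : (NN.card : ℝ) ≤ (l:ℝ) ^ g)
    (hF1 : (l:ℝ) ^ (V + 2) ≤ F) (hF2 : (F:ℝ) ^ 2 ≤ x) :
    Av F (fun f ψ => MX NN hne f ψ) ≤
      C * Real.log (Real.log x) ^ 2 * Real.sqrt x * F + x / (l:ℝ) ^ V := by
  set q := g + V + 9 with hq
  set h := 2 * (g + V + 2) with hh
  have hq9 : (9:ℝ) ≤ q := by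
    have : 9 ≤ q := by omega
    exact_mod_cast this
  have hh4 : (4:ℝ) ≤ h := by
    have : 4 ≤ h := by omega
    exact_mod_cast this
  have hC0 : 0 ≤ C := by rw [hC]; positivity
  have hl4000 : (4000:ℝ) ≤ l := by linarith
  have hl3 : 3 ≤ l := by
    have : (3:ℝ) ≤ l := by linarith
    exact_mod_cast this
  have hl0 : (0:ℝ) < l := by linarith
  have hl1 : (1:ℝ) ≤ l := by linarith
  have hv1 := one_le_log hl3
  obtain ⟨z, m, hz2, hm1, hm3, hm2, hzh, hzm, hlz, hzE⟩ :=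
    zfacts q h l (by omega) (by omega) hl3 hK
  set v := Real.log l with hv
  set E := Real.exp (l / 8) with hEd
  have hE0 : 0 < E := Real.exp_pos _
  have hz0 : (0:ℝ) < z := by
    have : 0 < z := by omega
    exact_mod_cast this
  have hm0 : (0:ℝ) < m := by
    have : 0 < m := by omega
    exact_mod_cast this
  have hElv : (l:ℝ) ^ 1 ≤ E := (pow_le_pow_right₀ hl1 (by omega)).trans hE
  rw [pow_one] at hElv
  have hE1 : 1 ≤ E := by linarith
  -- x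
  have hxpos : (0:ℝ) < x := by
    by_contra hcon
    have : (x:ℝ) = 0 := le_antisymm (not_lt.1 hcon) (Nat.cast_nonneg _)
    rw [this, Real.log_zero] at h1
    linarith
  have hx1 : 1 ≤ x := by
    have : 0 < x := by exact_mod_cast hxpos
    exact this
  have hxE : E ^ 8 ≤ x := by
    rw [hEd, ← Real.exp_nat_mul]
    have : ((8:ℕ):ℝ) * ((l:ℝ) / 8) = l := by push_cast; ring
    rw [this, ← Real.le_log_iff_exp_le hxpos]
    exact h1
  set r := Real.sqrt (Real.sqrt x) with hr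
  have hr0 : 0 ≤ r := Real.sqrt_nonneg _
  have hrs : r ^ 2 = Real.sqrt x := Real.sq_sqrt (Real.sqrt_nonneg _)
  have hrx : r ^ 4 = x := by
    have : r ^ 4 = (r ^ 2) ^ 2 := by ring
    rw [this, hrs, Real.sq_sqrt hxpos.le]
  set s := Real.sqrt x with hs
  have hs0 : 0 < s := Real.sqrt_pos.2 hxpos
  have hs2 : s ^ 2 = x := Real.sq_sqrt hxpos.le
  have hrE : E ^ 2 ≤ r := by
    have h3 : (E ^ 2) ^ 4 ≤ r ^ 4 := by
      rw [hrx]
      have h4 : (E ^ 2) ^ 4 = E ^ 8 := by ring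
      rw [h4]
      exact hxE
    exact le_of_pow_le_pow_left₀ (by norm_num) hr0 h3
  have hsE : E ^ 4 ≤ s := by
    rw [← hrs]
    calc E ^ 4 = (E ^ 2) ^ 2 := by ring
      _ ≤ r ^ 2 := by gcongr
  have hr00 : 0 < r := lt_of_lt_of_le (by positivity) hrE
  have hFpos : (0:ℝ) < F := lt_of_lt_of_le (by positivity) hF1
  have hF : 0 < F := by exact_mod_cast hFpos
  have hFs : (F:ℝ) ≤ s := by
    rw [hs]; exact Real.le_sqrt_of_sq_le hF2
  -- unit
  set u := (x:ℝ) / (l:ℝ) ^ (V + 1) with hu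
  have hu0 : 0 < u := by positivity
  have hlu : (x:ℝ) / (l:ℝ) ^ V = l * u := by
    rw [hu, pow_succ]; field_simp
  -- error 0
  have t0 : (F:ℝ) * (z + 1) ≤ 2 * u := by
    have a1 : (F:ℝ) * (z + 1) ≤ s * (2 * E) := by
      apply mul_le_mul hFs (by linarith) (by positivity) hs0.le
    have a2 : s * (2 * E) ≤ 2 * u := by
      rw [hu, ← hs2]
      have a3 : (l:ℝ) ^ (V + 1) ≤ E := (pow_le_pow_right₀ hl1 (by omega)).trans hE
      rw [mul_div_assoc', le_div_iff₀ (by positivity)]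
      have a4 : E * (l:ℝ) ^ (V + 1) ≤ s := by
        calc E * (l:ℝ) ^ (V + 1) ≤ E * E := by gcongr
          _ = E ^ 2 := by ring
          _ ≤ E ^ 4 := pow_le_pow_right₀ hE1 (by norm_num)
          _ ≤ s := hsE
      calc s * (2 * E) * (l:ℝ) ^ (V + 1) = 2 * s * (E * (l:ℝ) ^ (V + 1)) := by ring
        _ ≤ 2 * s * s := by gcongr
        _ = 2 * s ^ 2 := by ring
    exact a1.trans a2
  -- error 1
  have hlog2F : 1 + Real.log (2 * F) ≤ 2 * l := by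
    have b1 : Real.log (2 * F) = Real.log 2 + Real.log F := Real.log_mul (by norm_num) hFpos.ne'
    have b2 : Real.log F ≤ Real.log x := by
      apply Real.log_le_log hFpos
      have hF1' : (1:ℝ) ≤ F := by exact_mod_cast hF
      calc (F:ℝ) = (F:ℝ) ^ 1 := (pow_one _).symm
        _ ≤ (F:ℝ) ^ 2 := pow_le_pow_right₀ hF1' (by norm_num)
        _ ≤ x := hF2
    have b3 := Real.log_two_lt_d9
    rw [b1]; linarith
  have hlog2F0 : 0 ≤ 1 + Real.log (2 * F) := by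
    have hF1' : (1:ℝ) ≤ F := by exact_mod_cast hF
    have : 0 ≤ Real.log (2 * (F:ℝ)) := Real.log_nonneg (by linarith)
    linarith
  have t1 : (F:ℝ) * (((z ^ m : ℕ) : ℝ) * (Real.sqrt (2 * F) * (1 + Real.log (2 * F)))) ≤ 4 * u := by
    have a1 : Real.sqrt (2 * F) ≤ 2 * r := by
      rw [Real.sqrt_le_left (by positivity), mul_pow, hrs]
      linarith
    have a2 : ((z ^ m : ℕ) : ℝ) ≤ E := by push_cast; exact hzm
    have a3 : (l:ℝ) ^ (V + 2) ≤ E := (pow_le_pow_right₀ hl1 (by omega)).trans hE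
    calc (F:ℝ) * (((z ^ m : ℕ) : ℝ) * (Real.sqrt (2 * F) * (1 + Real.log (2 * F))))
        ≤ s * (E * (2 * r * (2 * l))) := by gcongr
      _ = 4 * (r ^ 3 * E * l) := by rw [← hrs]; ring
      _ ≤ 4 * u := by
          apply mul_le_mul_of_nonneg_left _ (by norm_num)
          rw [hu, ← hrx, le_div_iff₀ (by positivity)]
          have a4 : E * (l * (l:ℝ) ^ (V + 1)) ≤ r := by
            calc E * (l * (l:ℝ) ^ (V + 1)) = E * (l:ℝ) ^ (V + 2) := by ring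
              _ ≤ E * E := by gcongr
              _ = E ^ 2 := by ring
              _ ≤ r := hrE
          calc r ^ 3 * E * l * (l:ℝ) ^ (V + 1) = r ^ 3 * (E * (l * (l:ℝ) ^ (V + 1))) := by ring
            _ ≤ r ^ 3 * r := by gcongr
            _ = r ^ 4 := by ring
  -- common
  have hx5 : (x:ℝ) + 4 * (F:ℝ) ^ 2 ≤ 5 * x := by linarith
  have hcard0 : (0:ℝ) ≤ NN.card := Nat.cast_nonneg _
  -- error 2
  have t2 : (NN.card : ℝ) * (5 * Real.sqrt ((x + 4 * (F:ℝ) ^ 2) *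
          ((4:ℝ) ^ (-(Real.log ((z ^ m : ℕ) : ℝ) / Real.log z)) * (x * (1 + Real.log x) ^ 16)))) ≤
      3840 * u := by
    have hlz0 : 0 < Real.log z := by
      have : 0 < (l:ℝ) / (16 * m) := by positivity
      linarith
    have b1 : Real.log ((z ^ m : ℕ) : ℝ) / Real.log z = m := by
      push_cast
      rw [Real.log_pow]
      field_simp
    have b2 : (4:ℝ) ^ (-(Real.log ((z ^ m : ℕ) : ℝ) / Real.log z)) ≤ 1 / ((l:ℝ) ^ q) ^ 2 := by
      rw [b1, Real.rpow_def_of_pos (by norm_num), ← pow_mul]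
      have b3 : (1:ℝ) / (l:ℝ) ^ (q * 2) = Real.exp (-((q * 2 : ℕ) * v)) := by
        rw [Real.exp_neg, Real.exp_nat_mul, hv, Real.exp_log hl0, one_div]
      rw [b3]
      apply Real.exp_le_exp.2
      have b4 : 1 ≤ Real.log 4 := by
        rw [Real.le_log_iff_exp_le (by norm_num)]
        have := Real.exp_one_lt_d9
        linarith
      push_cast
      have b7 := mul_le_mul_of_nonneg_right b4 hm0.le
      linarith only [b7, hm2]
    have b5 : (1 + Real.log x) ^ 16 ≤ (256 * (l:ℝ) ^ 8) ^ 2 := by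
      calc (1 + Real.log x) ^ 16 ≤ (2 * (l:ℝ)) ^ 16 := by
            apply pow_le_pow_left₀ (by linarith)
            linarith
        _ = (256 * (l:ℝ) ^ 8) ^ 2 := by ring
    have b6 : Real.sqrt ((x + 4 * (F:ℝ) ^ 2) *
          ((4:ℝ) ^ (-(Real.log ((z ^ m : ℕ) : ℝ) / Real.log z)) * (x * (1 + Real.log x) ^ 16))) ≤
        768 * x * (l:ℝ) ^ 8 / (l:ℝ) ^ q := by
      rw [Real.sqrt_le_left (by positivity)]
      have hr4 : 0 ≤ (4:ℝ) ^ (-(Real.log ((z ^ m : ℕ) : ℝ) / Real.log z)) := by positivity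
      have hlx : 0 ≤ 1 + Real.log x := by linarith
      calc (x + 4 * (F:ℝ) ^ 2) *
          ((4:ℝ) ^ (-(Real.log ((z ^ m : ℕ) : ℝ) / Real.log z)) * (x * (1 + Real.log x) ^ 16))
          ≤ (5 * x) * (1 / ((l:ℝ) ^ q) ^ 2 * (x * (256 * (l:ℝ) ^ 8) ^ 2)) := by gcongr
        _ = 5 * (256 * x * (l:ℝ) ^ 8 / (l:ℝ) ^ q) ^ 2 := by
            field_simp
        _ ≤ 9 * (256 * x * (l:ℝ) ^ 8 / (l:ℝ) ^ q) ^ 2 := by
            have : 0 ≤ (256 * x * (l:ℝ) ^ 8 / (l:ℝ) ^ q) ^ 2 := sq_nonneg _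
            linarith
        _ = (768 * x * (l:ℝ) ^ 8 / (l:ℝ) ^ q) ^ 2 := by ring
    calc (NN.card : ℝ) * (5 * Real.sqrt ((x + 4 * (F:ℝ) ^ 2) *
          ((4:ℝ) ^ (-(Real.log ((z ^ m : ℕ) : ℝ) / Real.log z)) * (x * (1 + Real.log x) ^ 16))))
        ≤ (l:ℝ) ^ g * (5 * (768 * x * (l:ℝ) ^ 8 / (l:ℝ) ^ q)) := by gcongr
      _ = 3840 * u := by
          rw [hu, hq]
          have : (l:ℝ) ^ (g + V + 9) = (l:ℝ) ^ g * (l:ℝ) ^ 8 * (l:ℝ) ^ (V + 1) := by ring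
          rw [this]
          field_simp
          ring
  have hhsq : (l:ℝ) ^ h = ((l:ℝ) ^ (g + V + 2)) ^ 2 := by
    rw [hh, ← pow_mul]; congr 1; ring
  have hle : x * (l:ℝ) ^ g / (l:ℝ) ^ (g + V + 2) ≤ u := by
    rw [hu]
    have : (l:ℝ) ^ (g + V + 2) = (l:ℝ) ^ g * (l:ℝ) ^ (V + 1) * l := by ring
    rw [this, div_le_div_iff₀ (by positivity) (by positivity)]
    calc (x:ℝ) * (l:ℝ) ^ g * (l:ℝ) ^ (V + 1) = x * (l:ℝ) ^ g * (l:ℝ) ^ (V + 1) * 1 := by ring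
      _ ≤ x * (l:ℝ) ^ g * (l:ℝ) ^ (V + 1) * l := by gcongr
      _ = x * ((l:ℝ) ^ g * (l:ℝ) ^ (V + 1) * l) := by ring
  -- error 3
  have t3 : (NN.card : ℝ) * (5 * Real.sqrt ((x + 4 * (F:ℝ) ^ 2) * (2 * x / z))) ≤ 20 * u := by
    have b6 : Real.sqrt ((x + 4 * (F:ℝ) ^ 2) * (2 * x / z)) ≤ 4 * x / (l:ℝ) ^ (g + V + 2) := by
      rw [Real.sqrt_le_left (by positivity)]
      calc (x + 4 * (F:ℝ) ^ 2) * (2 * x / z) ≤ (5 * x) * (2 * x / (l:ℝ) ^ h) := by gcongr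
        _ = 10 * (x / (l:ℝ) ^ (g + V + 2)) ^ 2 := by rw [hhsq]; field_simp; norm_num
        _ ≤ 16 * (x / (l:ℝ) ^ (g + V + 2)) ^ 2 := by
            have : 0 ≤ (x / (l:ℝ) ^ (g + V + 2)) ^ 2 := sq_nonneg _
            linarith
        _ = (4 * x / (l:ℝ) ^ (g + V + 2)) ^ 2 := by ring
    calc (NN.card : ℝ) * (5 * Real.sqrt ((x + 4 * (F:ℝ) ^ 2) * (2 * x / z)))
        ≤ (l:ℝ) ^ g * (5 * (4 * x / (l:ℝ) ^ (g + V + 2))) := by gcongr
      _ = 20 * (x * (l:ℝ) ^ g / (l:ℝ) ^ (g + V + 2)) := by ring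
      _ ≤ 20 * u := by gcongr
  -- error 4
  have hHx : ((l ^ h : ℕ) : ℝ) ≤ x := by
    push_cast
    calc (l:ℝ) ^ h ≤ z := hzh
      _ ≤ E := hzE
      _ = E ^ 1 := (pow_one _).symm
      _ ≤ E ^ 8 := pow_le_pow_right₀ hE1 (by norm_num)
      _ ≤ x := hxE
  have t4 : (NN.card : ℝ) * (5 * Real.sqrt ((x + 4 * (F:ℝ) ^ 2) * (2 * x / ((l ^ h : ℕ) : ℝ) + 1))) ≤
      20 * u := by
    have b6 : Real.sqrt ((x + 4 * (F:ℝ) ^ 2) * (2 * x / ((l ^ h : ℕ) : ℝ) + 1)) ≤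
        4 * x / (l:ℝ) ^ (g + V + 2) := by
      rw [Real.sqrt_le_left (by positivity)]
      have b7 : 2 * (x:ℝ) / ((l ^ h : ℕ) : ℝ) + 1 ≤ 3 * x / (l:ℝ) ^ h := by
        push_cast at hHx ⊢
        have b8 : 1 ≤ (x:ℝ) / (l:ℝ) ^ h := by
          rw [le_div_iff₀ (by positivity)]; linarith
        have b9 : 3 * (x:ℝ) / (l:ℝ) ^ h = 2 * x / (l:ℝ) ^ h + x / (l:ℝ) ^ h := by ring
        rw [b9]; linarith
      calc (x + 4 * (F:ℝ) ^ 2) * (2 * x / ((l ^ h : ℕ) : ℝ) + 1) ≤ (5 * x) * (3 * x / (l:ℝ) ^ h) := by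
            gcongr
        _ = 15 * (x / (l:ℝ) ^ (g + V + 2)) ^ 2 := by rw [hhsq]; field_simp; norm_num
        _ ≤ 16 * (x / (l:ℝ) ^ (g + V + 2)) ^ 2 := by
            have : 0 ≤ (x / (l:ℝ) ^ (g + V + 2)) ^ 2 := sq_nonneg _
            linarith
        _ = (4 * x / (l:ℝ) ^ (g + V + 2)) ^ 2 := by ring
    calc (NN.card : ℝ) * (5 * Real.sqrt ((x + 4 * (F:ℝ) ^ 2) * (2 * x / ((l ^ h : ℕ) : ℝ) + 1)))
        ≤ (l:ℝ) ^ g * (5 * (4 * x / (l:ℝ) ^ (g + V + 2))) := by gcongr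
      _ = 20 * (x * (l:ℝ) ^ g / (l:ℝ) ^ (g + V + 2)) := by ring
      _ ≤ 20 * u := by gcongr
  -- the main term
  have hH0 : 0 < l ^ h := Nat.pow_pos (by omega)
  set J := Nat.log 2 (kap (l ^ h) x) with hJ
  have hJ1 : kap (l ^ h) x < 2 * 2 ^ J := by
    have := Nat.lt_pow_succ_log_self (b := 2) (by norm_num) (kap (l ^ h) x)
    rw [pow_succ] at this
    rw [hJ]; omega
  have hJ2 : (J:ℝ) ≤ 2 * (h + 2) * v := by
    rcases Nat.eq_zero_or_pos J with h0 | h0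
    · rw [h0]; push_cast; positivity
    · have hk0 : kap (l ^ h) x ≠ 0 := by
        intro hcon
        rw [hcon] at hJ
        simp at hJ
        omega
      have c1 : 2 ^ J ≤ kap (l ^ h) x := Nat.pow_log_le_self 2 hk0
      have c2 : ((2:ℝ)) ^ J ≤ (l:ℝ) ^ (h + 2) := by
        calc (2:ℝ) ^ J = ((2 ^ J : ℕ) : ℝ) := by push_cast; rfl
          _ ≤ (kap (l ^ h) x : ℝ) := by exact_mod_cast c1
          _ ≤ ((l ^ h : ℕ) : ℝ) * Real.log x := kap_le _ _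
          _ ≤ (l:ℝ) ^ h * (l * l) := by
              push_cast
              apply mul_le_mul_of_nonneg_left _ (by positivity)
              exact h2.le.trans (lin1 l (by linarith only [hl4000]))
          _ = (l:ℝ) ^ (h + 2) := by ring
      have c3 := Real.log_le_log (by positivity) c2
      rw [Real.log_pow, Real.log_pow, ← hv] at c3
      have c4 := Real.log_two_gt_d9
      push_cast at c3
      have c5 : (0:ℝ) ≤ J := Nat.cast_nonneg _
      have c6 : (J:ℝ) * (1 / 2) ≤ J * Real.log 2 :=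
        mul_le_mul_of_nonneg_left (by linarith only [c4]) c5
      linarith only [c6, c3]
  have hSS : SS z x ≤ 96 * q * v := by
    have c1 := SS_le z x hz2 hx1
    have c2 : Real.log (x * z) = Real.log x + Real.log z := Real.log_mul hxpos.ne' hz0.ne'
    have c3 : Real.log z ≤ l / 8 := by
      have := Real.log_le_log hz0 hzE
      rwa [hEd, Real.log_exp] at this
    have c4 := SS_nonneg z x
    have c5 : SS z x * (l / (16 * m)) ≤ 2 * l := by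
      calc SS z x * (l / (16 * m)) ≤ SS z x * Real.log z := by gcongr
        _ ≤ 1 + Real.log (x * z) := by exact_mod_cast c1
        _ ≤ 2 * l := by rw [c2]; linarith
    have c6 : SS z x ≤ 32 * m := by
      rw [mul_div_assoc', div_le_iff₀ (by positivity)] at c5
      have : SS z x * l ≤ (32 * m) * l := by linarith
      exact le_of_mul_le_mul_right this hl0
    linarith
  have hKp : ∀ p ∈ Icc 1 (x / z), kap (l ^ h) p < kap (l ^ h) x + 1 := by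
    intro p hp
    rw [mem_Icc] at hp
    apply Nat.lt_succ_of_le
    unfold kap
    apply Nat.floor_le_floor
    apply mul_le_mul_of_nonneg_left _ (Nat.cast_nonneg _)
    apply Real.log_le_log
    · have : 0 < p := by omega
      exact_mod_cast this
    · have := hp.2.trans (Nat.div_le_self x z)
      exact_mod_cast this
  have hsq : Real.sqrt (x * (1 + 2 * ((x / z : ℕ) : ℝ) / (F : ℝ) ^ 2 + x / (F : ℝ) ^ 4)) ≤
      s * (1 + 2 * (s / (l:ℝ) ^ (g + V + 2)) / F + s / (F:ℝ) ^ 2) := by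
    rw [Real.sqrt_le_left (by positivity), mul_pow, hs2]
    apply mul_le_mul_of_nonneg_left _ hxpos.le
    set P := s / (l:ℝ) ^ (g + V + 2) with hP
    have hP0 : 0 ≤ P := by positivity
    have d1 : ((x / z : ℕ) : ℝ) ≤ P ^ 2 := by
      calc ((x / z : ℕ) : ℝ) ≤ x / z := Nat.cast_div_le
        _ ≤ x / (l:ℝ) ^ h := by gcongr
        _ = P ^ 2 := by rw [hP, div_pow, hs2, hhsq]
    have d2 : 2 * ((x / z : ℕ) : ℝ) / (F : ℝ) ^ 2 ≤ (2 * P / F) ^ 2 := by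
      calc 2 * ((x / z : ℕ) : ℝ) / (F : ℝ) ^ 2 ≤ 2 * P ^ 2 / (F:ℝ) ^ 2 := by gcongr
        _ ≤ 4 * P ^ 2 / (F:ℝ) ^ 2 := by gcongr; norm_num
        _ = (2 * P / F) ^ 2 := by ring
    have d3 : (x:ℝ) / (F:ℝ) ^ 4 = (s / (F:ℝ) ^ 2) ^ 2 := by
      rw [div_pow, hs2, ← pow_mul]
    rw [d3]
    exact lin2 _ _ _ (by positivity) (by positivity) d2
  have hvl : v ^ 2 ≤ l := by
    exact lin3 _ _ _ _ hq9 hh4 hK
  have hvv : v ≤ Real.log (Real.log x) := Real.log_le_log hl0 h1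
  have t5 : 48 * (J:ℝ) * F * SS z x *
      Real.sqrt (x * (1 + 2 * ((x / z : ℕ) : ℝ) / (F : ℝ) ^ 2 + x / (F : ℝ) ^ 4)) ≤
      C * Real.log (Real.log x) ^ 2 * s * F + 3 * C * u := by
    have c4 := SS_nonneg z x
    have hv0 : 0 ≤ v := by linarith
    have e1 : 48 * (J:ℝ) * SS z x ≤ C * v ^ 2 := by
      calc 48 * (J:ℝ) * SS z x ≤ 48 * (2 * (h + 2) * v) * (96 * q * v) := by gcongr
        _ = C * v ^ 2 := by rw [hC]; ring
    have e2 : F * (s * (1 + 2 * (s / (l:ℝ) ^ (g + V + 2)) / F + s / (F:ℝ) ^ 2)) =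
        s * F + 2 * (x / (l:ℝ) ^ (g + V + 2)) + x / F := by
      rw [← hs2]
      field_simp
    have e3 : (x:ℝ) / (l:ℝ) ^ (g + V + 2) ≤ u / l := by
      rw [hu, div_div]
      apply div_le_div_of_nonneg_left hxpos.le (by positivity)
      rw [← pow_succ]
      apply pow_le_pow_right₀ hl1 (by omega)
    have e4 : (x:ℝ) / F ≤ u / l := by
      rw [hu, div_div]
      apply div_le_div_of_nonneg_left hxpos.le (by positivity)
      rw [← pow_succ]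
      exact hF1
    have e5 : 0 ≤ F * (s * (1 + 2 * (s / (l:ℝ) ^ (g + V + 2)) / F + s / (F:ℝ) ^ 2)) := by positivity
    calc 48 * (J:ℝ) * F * SS z x *
        Real.sqrt (x * (1 + 2 * ((x / z : ℕ) : ℝ) / (F : ℝ) ^ 2 + x / (F : ℝ) ^ 4))
        ≤ 48 * (J:ℝ) * F * SS z x *
          (s * (1 + 2 * (s / (l:ℝ) ^ (g + V + 2)) / F + s / (F:ℝ) ^ 2)) := by gcongr
      _ = (48 * (J:ℝ) * SS z x) *
          (F * (s * (1 + 2 * (s / (l:ℝ) ^ (g + V + 2)) / F + s / (F:ℝ) ^ 2))) := by ring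
      _ ≤ (C * v ^ 2) *
          (F * (s * (1 + 2 * (s / (l:ℝ) ^ (g + V + 2)) / F + s / (F:ℝ) ^ 2))) := by gcongr
      _ = C * v ^ 2 * (s * F) + C * v ^ 2 * (2 * (x / (l:ℝ) ^ (g + V + 2)) + x / F) := by
          rw [e2]; ring
      _ ≤ C * Real.log (Real.log x) ^ 2 * (s * F) + C * l * (2 * (u / l) + u / l) := by
          gcongr
      _ = C * Real.log (Real.log x) ^ 2 * s * F + 3 * C * u := by
          field_simp
          ring
  have key := Av_MX z (z ^ m) (l ^ h) x (x / z) F J (kap (l ^ h) x + 1) NN hne hNN hz2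
    (Nat.one_le_pow _ _ (by omega)) hH0 hF rfl hx1 hKp hJ1
  refine key.trans ?_
  rw [hlu]
  have hfin : (4000 + 3 * C) * u ≤ l * u := by gcongr
  linarith

end Pool.Agent.H441R3.BV
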